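import Pool.Agent.Helper15.GS.GoalsE
import Pool.Agent.Helper10.SP.WIRT
import Pool.Agent.Helper9.SP.ReglA

/-! # Packet GB1 of project GS: existence for positive `δ` -/

open Complex Metric Set Filter Topology MeasureTheory
open scoped ContDiff ComplexConjugate ComplexOrder Manifold Matrix

namespace Pool.Agent.Helper61.GS

open Pool.Agent.Helper95.Lin Pool.Agent.Helper16.Abund Pool.Agent.Helper92.Orb
  Pool.Agent.Helper10.SP Pool.Agent.Helper95.RK Pool.Agent.Helper57.HS
  Pool.Agent.Helper15.HS Pool.Agent.Helper15.GS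
open Pool.Agent.Helper9.SP (cd_congr cdb_congr cd_add')

universe u

theorem LM_congr {n : ℕ} {f g : Cn n → ℝ} {x : Cn n} (h : f =ᶠ[𝓝 x] g) : LM f x = LM g x := by
  ext j k
  unfold LM
  simp only [Matrix.of_apply]
  refine cd_congr ?_ j
  filter_upwards [h.eventuallyEq_nhds] with y hy
  refine cdb_congr ?_ k
  filter_upwards [hy] with z hz
  rw [hz]

theorem hermi_add {n : ℕ} (A B : Matrix (Fin n) (Fin n) ℂ) (u v : Fin n → ℂ) :
    hermi (A + B) u v = hermi A u v + hermi B u v := by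
  unfold hermi
  rw [← Finset.sum_add_distrib]
  refine Finset.sum_congr rfl fun i _ => ?_
  rw [← Finset.sum_add_distrib]
  refine Finset.sum_congr rfl fun j _ => ?_
  rw [Matrix.add_apply]
  ring

/-- A Kähler metric plus a closed invariant nonnegative form is a Kähler metric. -/
theorem ket_add {n : ℕ} {T : Set (Cn n)} {G : Type u} [Group G] {R : G → Cn n → Cn n → Prop}
    {Q β : Cn n → Matrix (Fin n) (Fin n) ℂ} (hQ : KEt T R Q) (hβ : CHF β T) (hi : InvH R β)
    (hp : ∀ x ∈ T, (β x).PosSemidef) : KEt T R fun x => Q x + β x := by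
  have hT := hQ.et.isOpen
  refine ⟨hQ.et, fun x hx => (hQ.posDef x hx).add_posSemidef (hp x hx), fun i j => ?_, ?_, ?_⟩
  · exact (hQ.smooth i j).add (hβ.smooth i j)
  · intro x hx i j l
    have d1 : ∀ i j, DifferentiableAt ℝ (fun y => Q y i j) x := fun i j =>
      Pool.Agent.Helper10.SP.Wirt.dAt hT (hQ.smooth i j) hx
    have d2 : ∀ i j, DifferentiableAt ℝ (fun y => β y i j) x := fun i j =>
      Pool.Agent.Helper10.SP.Wirt.dAt hT (hβ.smooth i j) hx
    have e1 : cd l (fun y => (Q y + β y) i j) x =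
        cd l (fun y => Q y i j) x + cd l (fun y => β y i j) x := cd_add' (d1 i j) (d2 i j) l
    have e2 : cd i (fun y => (Q y + β y) l j) x =
        cd i (fun y => Q y l j) x + cd i (fun y => β y l j) x := cd_add' (d1 l j) (d2 l j) i
    rw [e1, e2, hQ.closed x hx i j l, hβ.closed x hx i j l]
  · intro U τ hU x hx u v
    rw [hermi_add, hermi_add, hQ.inv U τ hU x hx u v, hi U τ hU x hx u v]

/-- Packet GB1. -/
theorem gb1 (hAYG : S_AYG.{u}) (hGEX : S_GEX.{u}) (hRHOI : S_RHOI.{u}) (hGPF : S_GPF.{u}) :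
    S_GB1.{u} := by
  intro n T G _ R H h hD k P hP δ hδ
  obtain ⟨Q', hQ'⟩ := hGEX T R H h hD δ hδ
  have hT := hQ'.ket.et.isOpen
  have hβp : ∀ x ∈ T, (P x * h x).PosSemidef := fun x hx => (hGPF T R H h hD k P hP x hx).2.1
  have hX : KEt T R fun x => Q' x + P x * h x := ket_add hQ'.ket hP.chf hP.inv hβp
  have h0 : InvF T R fun _ => (0 : ℝ) := ⟨contDiffOn_const, fun _ _ _ _ => rfl⟩
  obtain ⟨u, hu, hK, hdet⟩ := hAYG T R Q' (fun x => Q' x + P x * h x) hQ'.ket hX _ h0
  refine ⟨fun x => Q' x + P x * h x + LM u x, hK, fun x hx => ?_⟩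
  have hher : ∀ {Q : Cn n → Matrix (Fin n) (Fin n) ℂ}, KEt T R Q → HerT T R Q := fun hQ =>
    ⟨hQ.posDef, hQ.smooth, hQ.inv⟩
  obtain ⟨-, -, -, -, r5⟩ := hRHOI T R Q' hQ'.ket.et (hher hQ'.ket)
  obtain ⟨-, r6⟩ := r5 _ (hher hK)
  have h1 : LM (fun y => ld (fun x => Q' x + P x * h x + LM u x) y - ld Q' y) x = LM u x := by
    refine LM_congr ?_
    filter_upwards [hT.mem_nhds hx] with y hy
    have hpos : 0 < (Q' y).det.re := by
      have := (hQ'.ket.posDef y hy).det_pos
      exact (Complex.pos_iff.1 this).1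
    unfold ld
    rw [hdet y hy, add_zero, Real.log_mul (Real.exp_ne_zero _) hpos.ne', Real.log_exp]
    ring
  rw [r6 x hx, h1, hQ'.eq x hx]
  show Q' x - (δ : ℂ) • H x + LM u x =
    Q' x + P x * h x + LM u x - P x * h x - (δ : ℂ) • H x
  generalize P x * h x = B
  abel

end Pool.Agent.Helper61.GS
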