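import Pool.Agent.Helper15.GS.GoalsF

/-! # Packet HERM of project GS: the Hermitian metric on the étale relation -/

open Complex Metric Set Filter Topology MeasureTheory
open scoped ContDiff ComplexConjugate ComplexOrder Manifold Matrix

namespace Pool.Agent.Helper61.GS

open Pool.Agent.Helper95.Lin Pool.Agent.Helper16.Abund Pool.Agent.Helper92.Orb
  Pool.Agent.Helper10.SP Pool.Agent.Helper95.RK Pool.Agent.Helper57.HS
  Pool.Agent.Helper15.HS Pool.Agent.Helper10.HS Pool.Agent.Helper15.GS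

universe u v

theorem hess_congr {n : ℕ} {f g : Cn n → ℝ} {x : Cn n} (h : f =ᶠ[𝓝 x] g) (u v : Cn n) :
    hess f x u v = hess g x u v := by
  simp only [hess]
  have h1 : (fun y => fderiv ℝ f y v) =ᶠ[𝓝 x] fun y => fderiv ℝ g y v := by
    filter_upwards [h.eventually_nhds] with y hy
    rw [Filter.EventuallyEq.fderiv_eq hy]
  rw [h1.fderiv_eq]

theorem lev_congr {n : ℕ} {f g : Cn n → ℝ} {x : Cn n} (h : f =ᶠ[𝓝 x] g) (e : Cn n) :
    lev f x e = lev g x e := by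
  unfold lev
  rw [hess_congr h, hess_congr h]

/-- Packet HERM. -/
theorem herm_ (hPMH : S_PMH.{u, v}) (hGSNC : S_GSNC) : S_HERM.{u, v} := by
  intro n G M _ _ _ _ _ _ _ om q hD hq hinv T E hE hcov
  have hT : IsOpen T := hE.1.1
  obtain ⟨hsm, hpos, hHf, -⟩ := (hPMH hD q hq hinv).1 T E hE
  refine ⟨⟨hpos, hsm, ?_⟩, fun hpsh => ?_⟩
  · rintro U τ ⟨hU, hτ, γ, hγ⟩ x hx u w
    have hxT := (hγ x hx).1
    have hyT := (hγ x hx).2.1
    rw [hHf _ hyT, hHf _ hxT]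
    have hEx : MDifferentiableAt 𝓘(ℂ, Fin n → ℂ) 𝓘(ℂ, Fin n → ℂ) E x :=
      hE.1.2.mdifferentiableAt (hT.mem_nhds hxT)
    have hEy : MDifferentiableAt 𝓘(ℂ, Fin n → ℂ) 𝓘(ℂ, Fin n → ℂ) E (τ x) :=
      hE.1.2.mdifferentiableAt (hT.mem_nhds hyT)
    have hτx : MDifferentiableAt 𝓘(ℂ, Fin n → ℂ) 𝓘(ℂ, Fin n → ℂ) τ x :=
      mdifferentiableAt_iff_differentiableAt.2 (hτ.differentiableAt (hU.mem_nhds hx))
    have h1 := mfderiv_comp x hEy hτx
    have h2 := mfderiv_comp x (g := fun y : M => γ • y) (f := E) (hD.act.holo γ (E x)) hEx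
    have h3 : (E ∘ τ) =ᶠ[𝓝 x] ((fun y : M => γ • y) ∘ E) := by
      filter_upwards [hU.mem_nhds hx] with y hy using (hγ y hy).2.2.symm
    have h4 := h3.mfderiv_eq (I := 𝓘(ℂ, Fin n → ℂ)) (I' := 𝓘(ℂ, Fin n → ℂ))
    have h5 : ∀ e : Cn n, dvec n E (τ x) (fderiv ℂ τ x e) =
        tvec n (fun y : M => γ • y) (E x) (dvec n E x e) := by
      intro e
      have h6 : (mfderiv 𝓘(ℂ, Fin n → ℂ) 𝓘(ℂ, Fin n → ℂ) (E ∘ τ) x :
          (Fin n → ℂ) →L[ℂ] (Fin n → ℂ)) e =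
          dvec n E (τ x) (fderiv ℂ τ x e) := by
        rw [h1, mfderiv_eq_fderiv]
        rfl
      have h7 : (mfderiv 𝓘(ℂ, Fin n → ℂ) 𝓘(ℂ, Fin n → ℂ)
          ((fun y : M => γ • y) ∘ E) x :
          (Fin n → ℂ) →L[ℂ] (Fin n → ℂ)) e =
          tvec n (fun y : M => γ • y) (E x) (dvec n E x e) := by
        rw [h2]
        rfl
      rw [← h6, ← h7]
      exact congrArg (fun L : Cn n →L[ℂ] Cn n => L e) h4
    rw [h5, h5, ← (hγ x hx).2.2]
    exact hinv γ (E x) _ _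
  · refine hGSNC T hT (pm n q E) hpos hsm fun σ hσ x hx e => ?_
    have h1 := hpsh T E hE σ hσ.differentiableOn x hx e
    have h2 : Pool.Agent.Helper15.RK.sqn n q E σ =ᶠ[𝓝 x]
        Pool.Agent.Helper15.RK.sqT (pm n q E) σ := by
      filter_upwards [hT.mem_nhds hx] with y hy
      unfold Pool.Agent.Helper15.RK.sqn Pool.Agent.Helper15.RK.sqT
      rw [hHf y hy]
    rwa [lev_congr h2] at h1

end Pool.Agent.Helper61.GS
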